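import Pool.Agent.Run7.h130.MT.Jump

/-!
# Every jump costs something
-/

set_option autoImplicit false

namespace Run7.h130.MT

open Complex Set MeasureTheory Filter Topology

open scoped Real ComplexConjugate

variable {F : Type}

/-- comparison of the increments at two points -/
theorem incr [Countable F] {Θ : F → Set ℝ} (hΘ : ∀ c, MeasurableSet (Θ c)) (c : F) {u v h : ℝ}
    (huv : u < v) :
    |((∫ t in (0 : ℝ)..(v + h), (Θ c).indicator (1 : ℝ → ℝ) t) -
        ∫ t in (0 : ℝ)..v, (Θ c).indicator (1 : ℝ → ℝ) t) -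
      ((∫ t in (0 : ℝ)..(u + h), (Θ c).indicator (1 : ℝ → ℝ) t) -
        ∫ t in (0 : ℝ)..u, (Θ c).indicator (1 : ℝ → ℝ) t)| ≤
      (volume (Chg Θ h ∩ Ioc u v)).toReal := by
  obtain ⟨f, hf⟩ : ∃ f : ℝ → ℝ, f = (Θ c).indicator (1 : ℝ → ℝ) := ⟨_, rfl⟩
  have hloc : LocallyIntegrable f volume := by
    rw [hf]
    exact (locallyIntegrable_const (1 : ℝ)).indicator (hΘ c)
  have hint : ∀ x y : ℝ, IntervalIntegrable f volume x y := fun x y =>
    intervalIntegrable_iff.mpr <|
      (hloc.integrableOn_isCompact isCompact_uIcc).mono_set uIoc_subset_uIcc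
  have hint' : ∀ x y : ℝ, IntervalIntegrable (fun t => f (t + h)) volume x y := fun x y => by
    have h1 := (hint (x + h) (y + h)).comp_add_right h
    simpa using h1
  rw [← hf]
  have e1 : ((∫ t in (0 : ℝ)..(v + h), f t) - ∫ t in (0 : ℝ)..v, f t) -
      ((∫ t in (0 : ℝ)..(u + h), f t) - ∫ t in (0 : ℝ)..u, f t) =
      ∫ t in u..v, (f (t + h) - f t) := by
    rw [intervalIntegral.integral_sub (hint' u v) (hint u v),
      intervalIntegral.integral_comp_add_right f h,
      ← intervalIntegral.integral_interval_sub_left (hint 0 (v + h)) (hint 0 (u + h)),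
      ← intervalIntegral.integral_interval_sub_left (hint 0 v) (hint 0 u)]
    ring
  rw [e1]
  have hm := meas_Chg hΘ h
  have hgi : IntervalIntegrable ((Chg Θ h).indicator (1 : ℝ → ℝ)) volume u v :=
    intervalIntegrable_iff.mpr <|
      (((locallyIntegrable_const (1 : ℝ)).indicator hm).integrableOn_isCompact
        isCompact_uIcc).mono_set uIoc_subset_uIcc
  have h2 := intervalIntegral.norm_integral_le_of_norm_le (f := fun t => f (t + h) - f t)
    (μ := volume) huv.le (g := (Chg Θ h).indicator (1 : ℝ → ℝ)) ?_ hgi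
  · rw [Real.norm_eq_abs] at h2
    refine h2.trans (le_of_eq ?_)
    rw [intervalIntegral.integral_of_le huv.le, integral_indicator_one hm, Measure.real,
      Measure.restrict_apply hm]
  · refine Eventually.of_forall fun t _ => ?_
    simp only [hf, Real.norm_eq_abs]
    by_cases h3 : t ∈ Chg Θ h
    · rw [indicator_of_mem h3]
      by_cases h5 : t ∈ Θ c <;> by_cases h6 : t + h ∈ Θ c <;> simp [h5, h6]
    · rw [indicator_of_notMem h3]
      have h4 : ∀ c, (t ∈ Θ c ↔ t + h ∈ Θ c) := by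
        have h5 : ¬ ¬ ∀ c, (t ∈ Θ c ↔ t + h ∈ Θ c) := h3
        exact not_not.1 h5
      by_cases h5 : t ∈ Θ c
      · rw [indicator_of_mem h5, indicator_of_mem ((h4 c).1 h5)]
        simp
      · rw [indicator_of_notMem h5, indicator_of_notMem fun h6 => h5 ((h4 c).2 h6)]
        simp

/-- if the family is not constant in an interval, then it changes -/
theorem cost [Countable F] {Θ : F → Set ℝ} (hΘ : ∀ c, MeasurableSet (Θ c)) {a b : ℝ}
    (hno : ¬ Cst Θ a b) :
    ∀ᶠ h : ℝ in 𝓝[>] 0, ENNReal.ofReal (h / 2) ≤ volume (Chg Θ h ∩ Ioo a b) := by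
  unfold Cst at hno
  rw [not_forall] at hno
  obtain ⟨c, hc⟩ := hno
  rw [not_or] at hc
  obtain ⟨hc1, hc2⟩ := hc
  have hloc : LocallyIntegrable ((Θ c).indicator (1 : ℝ → ℝ)) volume :=
    (locallyIntegrable_const (1 : ℝ)).indicator (hΘ c)
  have hder := _root_.LocallyIntegrable.ae_hasDerivAt_integral hloc
  obtain ⟨G, hG⟩ : ∃ G : ℝ → ℝ, G = fun x => ∫ t in (0 : ℝ)..x, (Θ c).indicator (1 : ℝ → ℝ) t :=
    ⟨_, rfl⟩
  obtain ⟨x, ⟨hx1, hx2⟩, hx3⟩ : ∃ x, x ∈ Θ c ∩ Ioo a b ∧ HasDerivAt G 1 x := by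
    by_contra hcon
    push Not at hcon
    apply hc1
    refine measure_mono_null ?_ (ae_iff.1 hder)
    intro x hx h1
    apply hcon x hx
    have h2 := h1 0
    rw [indicator_of_mem hx.1, Pi.one_apply] at h2
    rw [hG]
    exact h2
  obtain ⟨y, ⟨hy1, hy2⟩, hy3⟩ : ∃ y, y ∈ Ioo a b \ Θ c ∧ HasDerivAt G 0 y := by
    by_contra hcon
    push Not at hcon
    apply hc2
    refine measure_mono_null ?_ (ae_iff.1 hder)
    intro x hx h1
    apply hcon x hx
    have h2 := h1 0
    rw [indicator_of_notMem hx.2] at h2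
    rw [hG]
    exact h2
  rw [hasDerivAt_iff_tendsto_slope_zero] at hx3 hy3
  have hle : (𝓝[>] (0 : ℝ)) ≤ 𝓝[≠] 0 := nhdsWithin_mono _ fun t ht => ne_of_gt ht
  have h1 := (hx3.mono_left hle).sub (hy3.mono_left hle)
  rw [sub_zero] at h1
  have h2 := h1.eventually (lt_mem_nhds (show (1 / 2 : ℝ) < 1 by norm_num))
  have hpos : ∀ᶠ h : ℝ in 𝓝[>] 0, 0 < h := eventually_mem_nhdsWithin
  filter_upwards [h2, hpos] with h h3 h4
  rw [smul_eq_mul, smul_eq_mul, ← mul_sub, inv_mul_eq_div, lt_div_iff₀ h4] at h3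
  have key : ∀ u v : ℝ, u < v → u ∈ Ioo a b → v ∈ Ioo a b →
      h / 2 ≤ |(G (v + h) - G v) - (G (u + h) - G u)| →
      ENNReal.ofReal (h / 2) ≤ volume (Chg Θ h ∩ Ioo a b) := by
    intro u v huv hu hv h5
    have h6 := incr hΘ c (h := h) huv
    rw [hG] at h5
    have h7 := h5.trans h6
    have hfin : volume (Chg Θ h ∩ Ioc u v) ≠ ⊤ :=
      measure_ne_top_of_subset inter_subset_right (by rw [Real.volume_Ioc]; exact ENNReal.ofReal_ne_top)
    refine (ENNReal.ofReal_le_of_le_toReal h7).trans (measure_mono ?_)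
    refine inter_subset_inter_right _ ?_
    rintro t ⟨ht1, ht2⟩
    exact ⟨hu.1.trans ht1, ht2.trans_lt hv.2⟩
  have hxy : x ≠ y := by
    rintro rfl
    exact hy2 hx1
  rcases lt_or_gt_of_ne hxy with hlt | hlt
  · refine key x y hlt hx2 hy1 ?_
    rw [abs_sub_comm]
    refine le_trans ?_ (le_abs_self _)
    linarith
  · refine key y x hlt hy1 hx2 ?_
    refine le_trans ?_ (le_abs_self _)
    linarith

/-- the sets of directions are null or conull, if turning all directions by `h` changes the family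
on a set of measure `O(h)` -/
theorem null_or' [Countable F] {Θ : F → Set ℝ} (hΘ : ∀ c, MeasurableSet (Θ c))
    (hper : ∀ c θ, θ + 2 * π ∈ Θ c ↔ θ ∈ Θ c) {a b : ℝ} {σ τ : Equiv.Perm F} (ha : Rel Θ a σ)
    (hb : Rel Θ b τ) (hirr : Irrational ((a - b) / π)) {C r w : ℝ} (hr : 0 < r) (hw : 0 < w)
    (hC : ∀ h : ℝ, 0 < h → h < 1 →
      ENNReal.ofReal r * volume (Chg Θ h ∩ Ioo 0 w) ≤ ENNReal.ofReal (C * h)) (c : F) :
    volume (Θ c) = 0 ∨ volume (Θ c)ᶜ = 0 := by
  by_cases hU : ∃ θ, θ ∈ UU Θ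
  · obtain ⟨θ, hθ⟩ := hU
    exact null_of_UU (UU_all hper ha hb hirr hθ) c
  exfalso
  push Not at hU
  obtain ⟨M, hM⟩ := exists_nat_gt (2 * |C| / r)
  have hM0 : (0 : ℝ) < M := lt_of_le_of_lt (by positivity) hM
  have hI : ∀ j : ℕ, ¬ Cst Θ (j * (w / M)) ((j + 1) * (w / M)) := by
    intro j h1
    have hpos : 0 < w / M := by positivity
    apply hU ((j + 1 / 2) * (w / M))
    refine ⟨w / M / 2, by positivity, h1.mono ?_ ?_⟩
    · nlinarith
    · nlinarith
  have h1 : ∀ᶠ h : ℝ in 𝓝[>] 0, ∀ j ∈ Finset.range M,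
      ENNReal.ofReal (h / 2) ≤ volume (Chg Θ h ∩ Ioo (j * (w / M)) ((j + 1) * (w / M))) :=
    (Finset.eventually_all _).2 fun j _ => cost hΘ (hI j)
  have h2 : ∀ᶠ h : ℝ in 𝓝[>] 0, h < 1 :=
    (gt_mem_nhds (show (0 : ℝ) < 1 by norm_num)).filter_mono nhdsWithin_le_nhds
  have hpos : ∀ᶠ h : ℝ in 𝓝[>] 0, 0 < h := eventually_mem_nhdsWithin
  obtain ⟨h, h3, h4, h5⟩ := (h1.and (h2.and hpos)).exists
  have hw0 : 0 < w / M := by positivity
  have h6 : (M : ENNReal) * ENNReal.ofReal (h / 2) ≤ volume (Chg Θ h ∩ Ioo 0 w) := by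
    calc (M : ENNReal) * ENNReal.ofReal (h / 2) =
          ∑ j ∈ Finset.range M, ENNReal.ofReal (h / 2) := by
          rw [Finset.sum_const, Finset.card_range, nsmul_eq_mul]
      _ ≤ ∑ j ∈ Finset.range M,
          volume (Chg Θ h ∩ Ioo (j * (w / M)) ((j + 1) * (w / M))) := Finset.sum_le_sum h3
      _ = volume (⋃ j ∈ Finset.range M,
          (Chg Θ h ∩ Ioo ((j : ℝ) * (w / M)) ((j + 1) * (w / M)))) := by
          rw [measure_biUnion_finset]
          · intro i _ j _ hij
            have hdis : ∀ i j : ℕ, i < j → Disjoint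
                (Chg Θ h ∩ Ioo ((i : ℝ) * (w / M)) ((i + 1) * (w / M)))
                (Chg Θ h ∩ Ioo ((j : ℝ) * (w / M)) ((j + 1) * (w / M))) := by
              intro i j hij
              rw [Set.disjoint_left]
              rintro t ⟨-, ht1⟩ ⟨-, ht2⟩
              have h7 : ((i : ℝ) + 1) ≤ j := by exact_mod_cast hij
              have h8 : ((i : ℝ) + 1) * (w / M) ≤ j * (w / M) :=
                mul_le_mul_of_nonneg_right h7 hw0.le
              linarith [ht1.2, ht2.1]
            rcases lt_or_gt_of_ne hij with h7 | h7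
            · exact hdis i j h7
            · exact (hdis j i h7).symm
          · intro j _
            exact (meas_Chg hΘ h).inter measurableSet_Ioo
      _ ≤ volume (Chg Θ h ∩ Ioo 0 w) := by
          apply measure_mono
          intro t ht
          simp only [mem_iUnion, Finset.mem_range] at ht
          obtain ⟨j, hj, ht1, ht2, ht3⟩ := ht
          have h7 : ((j : ℝ) + 1) ≤ M := by exact_mod_cast hj
          have h8 : ((j : ℝ) + 1) * (w / M) ≤ M * (w / M) := mul_le_mul_of_nonneg_right h7 hw0.le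
          rw [mul_div_cancel₀ _ hM0.ne'] at h8
          have h9 : 0 ≤ (j : ℝ) * (w / M) := by positivity
          exact ⟨ht1, by linarith, by linarith⟩
  have h7 : ENNReal.ofReal (r * (M * (h / 2))) ≤ ENNReal.ofReal (|C| * h) := by
    calc ENNReal.ofReal (r * (M * (h / 2))) =
          ENNReal.ofReal r * ((M : ENNReal) * ENNReal.ofReal (h / 2)) := by
          rw [ENNReal.ofReal_mul hr.le, ENNReal.ofReal_mul hM0.le, ENNReal.ofReal_natCast]
      _ ≤ ENNReal.ofReal r * volume (Chg Θ h ∩ Ioo 0 w) := by gcongr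
      _ ≤ ENNReal.ofReal (C * h) := hC h h5 h4
      _ ≤ ENNReal.ofReal (|C| * h) :=
          ENNReal.ofReal_le_ofReal (mul_le_mul_of_nonneg_right (le_abs_self C) h5.le)
  have h8 := (ENNReal.ofReal_le_ofReal_iff (by positivity)).1 h7
  rw [div_lt_iff₀ hr] at hM
  nlinarith

end Run7.h130.MT
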