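import Pool.Agent.W780.BB.Defs

/-!
# Discrete extensions of the billiard in a convex polygon

States of the extension are pairs of a state (position, direction) of the billiard and a colour
`c ∈ F`, `F` a countable set; a reflection in side `i` changes the colour `c` to `σ i c`.
-/

set_option autoImplicit false

namespace Run7.h130.MT

open Complex Set MeasureTheory Pool.Agent.W780.PG Pool.Agent.W780.BB

open scoped Real

variable {n : ℕ} {F : Type}

/-- A set `A` of coloured states is invariant under the billiard flow in the region of `p` with the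
colour changes `σ`: it does not matter if `2 π` is added to the direction angle (`periodic`);
membership does not change during free motion inside the region (`free`), when the colour is kept,
and under elastic reflection in an inner point `y` of side `i` (`reflect`), where the direction angle
`θ` becomes `2 τ - θ`, `τ` the direction angle of the side, and the colour `c` becomes `σ i c`.
Nothing is required of the motion after a vertex has been hit. -/
structure IsInvariantF (p : Fin (n + 3) → ℂ) (σ : Fin (n + 3) → Equiv.Perm F)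
    (A : Set ((ℂ × ℝ) × F)) : Prop where
  periodic : ∀ (c : F) (z : ℂ) (θ : ℝ), ((z, θ + 2 * π), c) ∈ A ↔ ((z, θ), c) ∈ A
  free : ∀ (c : F) (z : ℂ) (θ s : ℝ), z ∈ region p → z + s • dir θ ∈ region p →
    (((z, θ), c) ∈ A ↔ ((z + s • dir θ, θ), c) ∈ A)
  reflect : ∀ (c : F) (i : Fin (n + 3)), ∀ y ∈ openSegment ℝ (p i) (p (i + 1)), ∀ θ s r : ℝ,
    0 < s → 0 < r →
    y - s • dir θ ∈ region p → y + r • dir (2 * tau p i - θ) ∈ region p →
    (((y - s • dir θ, θ), c) ∈ A ↔
      ((y + r • dir (2 * tau p i - θ), 2 * tau p i - θ), σ i c) ∈ A)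

/-- finite directional perimeter: turning the direction by an angle `h` changes the set of colours
`{c | (x, c) ∈ A}` only for the states `x` of a set of measure at most `C h` -/
def FinitePerimeterF (p : Fin (n + 3) → ℂ) (A : Set ((ℂ × ℝ) × F)) : Prop :=
  ∃ C : ℝ, ∀ h : ℝ, 0 < h → h < 1 →
    volume {x : ℂ × ℝ | x ∈ phase p ∧ ¬ ∀ c : F, ((x, c) ∈ A ↔ ((x.1, x.2 + h), c) ∈ A)} ≤
      ENNReal.ofReal (C * h)

/-- `A` is null or conull in the space of the coloured states -/
def IsTrivialF (p : Fin (n + 3) → ℂ) (A : Set ((ℂ × ℝ) × F)) : Prop :=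
  (∀ c : F, volume {x : ℂ × ℝ | x ∈ phase p ∧ (x, c) ∈ A} = 0) ∨
    ∀ c : F, volume {x : ℂ × ℝ | x ∈ phase p ∧ (x, c) ∉ A} = 0

/-- the sections of an invariant set -/
structure Fam (p : Fin (n + 3) → ℂ) (σ : Fin (n + 3) → Equiv.Perm F)
    (A : F → Set (ℂ × ℝ)) : Prop where
  periodic : ∀ (c : F) (z : ℂ) (θ : ℝ), (z, θ + 2 * π) ∈ A c ↔ (z, θ) ∈ A c
  free : ∀ (c : F) (z : ℂ) (θ s : ℝ), z ∈ region p → z + s • dir θ ∈ region p →
    ((z, θ) ∈ A c ↔ (z + s • dir θ, θ) ∈ A c)
  reflect : ∀ (c : F) (i : Fin (n + 3)), ∀ y ∈ openSegment ℝ (p i) (p (i + 1)), ∀ θ s r : ℝ,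
    0 < s → 0 < r →
    y - s • dir θ ∈ region p → y + r • dir (2 * tau p i - θ) ∈ region p →
    ((y - s • dir θ, θ) ∈ A c ↔ (y + r • dir (2 * tau p i - θ), 2 * tau p i - θ) ∈ A (σ i c))

/-- two states belong to the same sets of the family -/
def Eqv (A : F → Set (ℂ × ℝ)) (x y : ℂ × ℝ) : Prop := ∀ c, (x ∈ A c ↔ y ∈ A c)

theorem Eqv.symm {A : F → Set (ℂ × ℝ)} {x y : ℂ × ℝ} (h : Eqv A x y) : Eqv A y x :=
  fun c => (h c).symm

theorem Eqv.trans {A : F → Set (ℂ × ℝ)} {x y z : ℂ × ℝ} (h : Eqv A x y) (h' : Eqv A y z) :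
    Eqv A x z := fun c => (h c).trans (h' c)

/-- the change of the colours along a list of sides, forward or backward -/
def PP (σ : Fin (n + 3) → Equiv.Perm F) (b : Bool) : List (Fin (n + 3)) → F → F
  | [], c => c
  | i :: w, c => PP σ b w (if b = true then σ i c else (σ i).symm c)

end Run7.h130.MT
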