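import Pool.Agent.W803.BB.Dir
import Pool.Agent.Run7.h130.MT.Defs

/-!
# Invariance under free motion and small transversal translations
-/

set_option autoImplicit false

namespace Run7.h130.MT

open Complex Set MeasureTheory Filter Topology Pool.Agent.W780.PG Pool.Agent.W780.BB
open Pool.Agent.W803.BBD hiding dir_main

open scoped Real ComplexConjugate

theorem dir_main (hB : S_Basic) (hH : S_Hull) {n : ℕ} {p : Fin (n + 3) → ℂ}
    (hp : IsConvexPolygon p) {S : Set (ℂ × ℝ)} (hS : MeasurableSet S)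
    (hper : ∀ (z : ℂ) (θ : ℝ), (z, θ + 2 * π) ∈ S ↔ (z, θ) ∈ S)
    (hfree : ∀ (z : ℂ) (θ s : ℝ), z ∈ region p → z + s • dir θ ∈ region p →
      ((z, θ) ∈ S ↔ (z + s • dir θ, θ) ∈ S))
    (hnull : ∀ η δ : ℝ, 0 < δ → δ < η →
      volume {x : ℂ × ℝ | x ∈ phase p ∧ Metric.closedBall x.1 (2 * η) ⊆ reg p ∧
        ¬ (x ∈ S ↔ (x.1 + δ • (I * dir x.2), x.2) ∈ S)} = 0) :
    ∃ Θ : Set ℝ, MeasurableSet Θ ∧ (∀ θ, θ + 2 * π ∈ Θ ↔ θ ∈ Θ) ∧
      volume {x : ℂ × ℝ | x ∈ phase p ∧ ¬ (x ∈ S ↔ x.2 ∈ Θ)} = 0 := by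
  have hreg : region p = reg p := (hH n p hp).2
  obtain ⟨_, hop, hconv, _⟩ := hB n p hp
  set Ω : Set ℂ := reg p with hΩ
  -- the bad set in the triple product
  have hmeas : ∀ η : ℝ, MeasurableSet {q : ℝ × (ℂ × ℝ) | q.1 ∈ Ioo 0 η ∧
      (q.2.1 ∈ OO Ω η ∧ (q.2.2 ∈ Ico 0 (2 * π) ∧
      ¬ (q.2 ∈ S ↔ (q.2.1 + q.1 • (I * dir q.2.2), q.2.2) ∈ S)))} := by
    intro η
    have m1 : MeasurableSet {q : ℝ × (ℂ × ℝ) | q.1 ∈ Ioo 0 η} :=
      measurable_fst measurableSet_Ioo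
    have m2 : MeasurableSet {q : ℝ × (ℂ × ℝ) | q.2.1 ∈ OO Ω η} :=
      (measurable_fst.comp measurable_snd) (isOpen_OO Ω η).measurableSet
    have m3 : MeasurableSet {q : ℝ × (ℂ × ℝ) | q.2.2 ∈ Ico 0 (2 * π)} :=
      (measurable_snd.comp measurable_snd) measurableSet_Ico
    have m4 : MeasurableSet {q : ℝ × (ℂ × ℝ) | q.2 ∈ S} := measurable_snd hS
    have m5 : MeasurableSet {q : ℝ × (ℂ × ℝ) |
        (q.2.1 + q.1 • (I * dir q.2.2), q.2.2) ∈ S} := by
      have : Measurable (fun q : ℝ × (ℂ × ℝ) =>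
          ((q.2.1 + q.1 • (I * dir q.2.2), q.2.2) : ℂ × ℝ)) := by
        apply Continuous.measurable
        have := continuous_dir
        fun_prop
      exact this hS
    exact m1.inter (m2.inter (m3.inter (m4.iff m5).compl))
  have hz : ∀ η : ℝ, 0 < η → ∀ᵐ q : ℝ × (ℂ × ℝ), ¬ (q.1 ∈ Ioo 0 η ∧
      (q.2.1 ∈ OO Ω η ∧ (q.2.2 ∈ Ico 0 (2 * π) ∧
      ¬ (q.2 ∈ S ↔ (q.2.1 + q.1 • (I * dir q.2.2), q.2.2) ∈ S)))) := by
    intro η hη
    rw [ae_iff]
    simp only [not_not]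
    rw [Measure.volume_eq_prod, Measure.measure_prod_null (hmeas η)]
    refine Eventually.of_forall fun δ => ?_
    simp only [Pi.zero_apply]
    by_cases hδ : δ ∈ Ioo 0 η
    · refine measure_mono_null ?_ (hnull η δ hδ.1 hδ.2)
      rintro ⟨z, θ⟩ ⟨_, h2, h3, h4⟩
      have h5 := OO_sub hη.le h2
      refine ⟨⟨?_, h3⟩, h5, h4⟩
      show z ∈ region p
      rw [hreg]
      exact h5 (Metric.mem_closedBall_self (by positivity))
    · convert measure_empty (μ := (volume : Measure (ℂ × ℝ)))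
      rw [eq_empty_iff_forall_notMem]
      rintro x ⟨h1, _⟩
      exact hδ h1
  -- swap
  have hz2 : ∀ η : ℝ, 0 < η → ∀ᵐ θ : ℝ, ∀ᵐ z : ℂ, ∀ᵐ δ : ℝ, ¬ (δ ∈ Ioo 0 η ∧
      (z ∈ OO Ω η ∧ (θ ∈ Ico 0 (2 * π) ∧
      ¬ ((z, θ) ∈ S ↔ (z + δ • (I * dir θ), θ) ∈ S)))) := by
    intro η hη
    have h1 := hz η hη
    have hsw : Measure.QuasiMeasurePreserving (Prod.swap : (ℂ × ℝ) × ℝ → ℝ × (ℂ × ℝ)) :=
      (Measure.measurePreserving_swap (μ := (volume : Measure (ℂ × ℝ)))
        (ν := (volume : Measure ℝ))).quasiMeasurePreserving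
    have h2 := hsw.ae h1
    have h3 := Measure.ae_ae_of_ae_prod h2
    have hsw2 : Measure.QuasiMeasurePreserving (Prod.swap : ℝ × ℂ → ℂ × ℝ) :=
      (Measure.measurePreserving_swap (μ := (volume : Measure ℝ))
        (ν := (volume : Measure ℂ))).quasiMeasurePreserving
    have h4 := hsw2.ae h3
    have h5 := Measure.ae_ae_of_ae_prod h4
    exact h5
  have hz3 : ∀ᵐ θ : ℝ, ∀ k : ℕ, ∀ᵐ z : ℂ, ∀ᵐ δ : ℝ, ¬ (δ ∈ Ioo 0 (1 / ((k : ℝ) + 1)) ∧
      (z ∈ OO Ω (1 / ((k : ℝ) + 1)) ∧ (θ ∈ Ico 0 (2 * π) ∧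
      ¬ ((z, θ) ∈ S ↔ (z + δ • (I * dir θ), θ) ∈ S)))) := by
    rw [ae_all_iff]
    intro k
    exact hz2 _ (by positivity)
  -- sections are null or conull
  have hsec : ∀ᵐ θ : ℝ, θ ∈ Ico 0 (2 * π) →
      volume (Ω ∩ {z | (z, θ) ∈ S}) = 0 ∨ volume (Ω \ {z | (z, θ) ∈ S}) = 0 := by
    filter_upwards [hz3] with θ hθ hθI
    apply global_const Ω _ hconv.isPreconnected
    apply local_const Ω _ θ hop
    · intro z s h1 h2
      exact hfree z θ s (by rw [hreg]; exact h1) (by rw [hreg]; exact h2)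
    · intro k
      filter_upwards [hθ k] with z hz
      filter_upwards [hz] with δ hδ h1 h2 h3
      by_contra hn
      exact hδ ⟨⟨h2, h3⟩, h1, hθI, hn⟩
  -- the set of directions
  have hm0 : MeasurableSet ((fun x : ℂ × ℝ => x.1) ⁻¹' Ω ∩ S) :=
    (measurable_fst hop.measurableSet).inter hS
  set Θ : Set ℝ := {θ | volume ((fun z : ℂ => (z, θ)) ⁻¹' ((fun x : ℂ × ℝ => x.1) ⁻¹' Ω ∩ S)) ≠ 0}
    with hΘ
  have hpre : ∀ θ : ℝ, (fun z : ℂ => (z, θ)) ⁻¹' ((fun x : ℂ × ℝ => x.1) ⁻¹' Ω ∩ S) =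
      Ω ∩ {z | (z, θ) ∈ S} := fun θ => rfl
  have hΘm : MeasurableSet Θ := by
    have h1 : Measurable (fun θ : ℝ => volume ((fun z : ℂ => (z, θ)) ⁻¹'
        ((fun x : ℂ × ℝ => x.1) ⁻¹' Ω ∩ S))) :=
      measurable_measure_prodMk_right hm0
    exact (h1 (measurableSet_singleton 0)).compl
  refine ⟨Θ, hΘm, ?_, ?_⟩
  · intro θ
    rw [hΘ]
    simp only [mem_ofPred_eq]
    rw [hpre, hpre]
    have : {z : ℂ | (z, θ + 2 * π) ∈ S} = {z | (z, θ) ∈ S} := by
      ext z
      exact hper z θ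
    rw [this]
  · -- the exceptional set
    have hE : MeasurableSet {x : ℂ × ℝ | x ∈ phase p ∧ ¬ (x ∈ S ↔ x.2 ∈ Θ)} := by
      have m1 : MeasurableSet (phase p) := by
        unfold phase
        rw [hreg]
        exact hop.measurableSet.prod measurableSet_Ico
      have m2 : MeasurableSet {x : ℂ × ℝ | x.2 ∈ Θ} := measurable_snd hΘm
      exact m1.inter (hS.iff m2).compl
    have hsw : MeasurePreserving (Prod.swap : ℝ × ℂ → ℂ × ℝ) :=
      Measure.measurePreserving_swap (μ := (volume : Measure ℝ)) (ν := (volume : Measure ℂ))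
    rw [← hsw.measure_preimage hE.nullMeasurableSet, Measure.volume_eq_prod,
      Measure.measure_prod_null (hsw.measurable hE)]
    filter_upwards [hsec] with θ hθ
    simp only [Pi.zero_apply]
    by_cases hθI : θ ∈ Ico 0 (2 * π)
    · rcases hθ hθI with h1 | h1
      · have h2 : θ ∉ Θ := by
          rw [hΘ]
          simp only [mem_ofPred_eq, not_not]
          exact h1
        refine measure_mono_null ?_ h1
        rintro z ⟨⟨hz1, _⟩, hz2⟩
        refine ⟨?_, ?_⟩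
        · have : z ∈ region p := hz1
          rw [hreg] at this
          exact this
        · by_contra hn
          apply hz2
          exact iff_of_false hn h2
      · by_cases h2 : θ ∈ Θ
        · refine measure_mono_null ?_ h1
          rintro z ⟨⟨hz1, _⟩, hz2⟩
          refine ⟨?_, ?_⟩
          · have : z ∈ region p := hz1
            rw [hreg] at this
            exact this
          · intro hn
            apply hz2
            exact iff_of_true hn h2
        · have h3 : volume (Ω ∩ {z | (z, θ) ∈ S}) = 0 := by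
            rw [hΘ] at h2
            simp only [mem_ofPred_eq, not_not] at h2
            exact h2
          refine measure_mono_null ?_ h3
          rintro z ⟨⟨hz1, _⟩, hz2⟩
          refine ⟨?_, ?_⟩
          · have : z ∈ region p := hz1
            rw [hreg] at this
            exact this
          · by_contra hn
            apply hz2
            exact iff_of_false hn h2
    · convert measure_empty (μ := (volume : Measure ℂ))
      rw [eq_empty_iff_forall_notMem]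
      rintro z ⟨⟨_, h2⟩, _⟩
      exact hθI h2

end Run7.h130.MT
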