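import Pool.Agent.W82.BB.Inv
import Pool.Agent.Run7.h130.MT.Defs

/-!
# Invariance along itineraries
-/

set_option autoImplicit false

namespace Run7.h130.MT

open Complex Set MeasureTheory Filter Topology Pool.Agent.W780.PG Pool.Agent.W780.BB
open Pool.Agent.W174.PG Pool.Agent.W82.BB

open scoped Real ComplexConjugate

variable {n : ℕ} {F : Type}

/-- the general statement -/
theorem inv_gen (hR : S_Ref) {p : Fin (n + 3) → ℂ} (hp : IsConvexPolygon p)
    (hreg : region p = reg p) {σ : Fin (n + 3) → Equiv.Perm F} {A' : F → Set (ℂ × ℝ)}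
    (hS : Fam p σ A') (b : Bool) :
    ∀ (w : List (Fin (n + 3))) (k : F) (y : ℂ) (θ s r : ℝ), (b = true → 0 ≤ s) →
      (b = false → s ≤ 0) → y + (r * s) • dir θ ∈ reg p →
      Ch p w y (y + s • dir θ) →
      ((y + (r * s) • dir θ, θ) ∈ A' k ↔ fd p w (y + s • dir θ, θ) ∈ A' (PP σ b w k)) := by
  obtain ⟨-, -, hR3, hR4, hR5, -⟩ := hR n p hp
  intro w
  induction w with
  | nil =>
    intro k y θ s r hb1 hb2 hz hA
    have h1 := hS.free k (y + (r * s) • dir θ) θ (s - r * s) (by rw [hreg]; exact hz)
    have e : y + (r * s) • dir θ + (s - r * s) • dir θ = y + s • dir θ := by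
      rw [add_assoc, ← add_smul]; congr 2; ring
    rw [e, hreg] at h1
    exact h1 hA
  | cons i w ih =>
    intro k y θ s r hb1 hb2 hz hCh
    obtain ⟨hy, hA, hc, hCh'⟩ := hCh
    obtain ⟨A, hAdef⟩ : ∃ A : ℂ, A = y + s • dir θ := ⟨_, rfl⟩
    obtain ⟨t, ht⟩ : ∃ t : ℝ, t = sf p i y / (sf p i y - sf p i A) := ⟨_, rfl⟩
    rw [← hAdef] at hA hc hCh'
    have hAy : A - y = s • dir θ := by rw [hAdef]; ring
    have hden : 0 < sf p i y - sf p i A := by linarith
    have ht0 : 0 < t := by rw [ht]; exact div_pos hy hden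
    have ht1 : t < 1 := by rw [ht, div_lt_one hden]; linarith
    have hcr : cr p i y A = y + (t * s) • dir θ := by
      unfold cr
      rw [← ht, hAy, smul_smul]
    have hc0 : sf p i (cr p i y A) = 0 := by
      have h1 : cr p i y A = y + t • (A - y) := by unfold cr; rw [← ht]
      rw [h1, sf_line, ht]
      field_simp
      ring
    obtain ⟨c, hcdef⟩ : ∃ c : ℂ, c = cr p i y A := ⟨_, rfl⟩
    rw [← hcdef] at hc hc0 hCh' hcr
    have hside : c ∈ side p i := mem_side hp hc0 hc
    have hr : r < t := by
      have h1 := hz i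
      have h2 : y + (r * s) • dir θ = y + r • (A - y) := by rw [hAy, smul_smul]
      rw [h2] at h1
      have h3 := sf_line p i y A r
      unfold sf at h3
      rw [h3] at h1
      have h4 : (1 - r) * sf p i y + r * sf p i A > 0 := h1
      rw [ht, lt_div_iff₀ hden]
      linarith
    -- the next piece
    have hrfc : rf p i c = c := hR4 i c hc0
    have hA2 : A = c + ((1 - t) * s) • dir θ := by
      rw [hcr, hAdef, add_assoc, ← add_smul]
      congr 2
      ring
    have hrfA : rf p i A = c + ((1 - t) * s) • dir (2 * tau p i - θ) := by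
      conv_lhs => rw [hA2]
      rw [hR5, hrfc]
    have hsfA : 0 < sf p i (rf p i A) := by rw [hR3]; linarith
    obtain ⟨u, hu0, hu1, hu⟩ := small_step hc0 hc hsfA
    have hu' : c + (u * ((1 - t) * s)) • dir (2 * tau p i - θ) ∈ reg p := by
      have e : c + u • (rf p i A - c) = c + (u * ((1 - t) * s)) • dir (2 * tau p i - θ) := by
        rw [hrfA, add_sub_cancel_left, smul_smul]
      rwa [e] at hu
    have h1t' : 0 < 1 - t := by linarith
    have hIH := ih (if b = true then σ i k else (σ i).symm k) c (2 * tau p i - θ) ((1 - t) * s) u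
      (fun hb => mul_nonneg h1t'.le (hb1 hb)) (fun hb => mul_nonpos_of_nonneg_of_nonpos h1t'.le (hb2 hb))
      hu' (by rw [← hrfA]; exact hCh')
    have hfd : fd p (i :: w) (A, θ) = fd p w (c + ((1 - t) * s) • dir (2 * tau p i - θ), 2 * tau p i - θ) := by
      rw [← hrfA]
      rfl
    rw [← hAdef, hfd]
    show _ ↔ _ ∈ A' (PP σ b w (if b = true then σ i k else (σ i).symm k))
    rw [← hIH]
    have hz' : y + (r * s) • dir θ = c - ((t - r) * s) • dir θ := by
      rw [hcr]
      have : (r * s) = t * s - (t - r) * s := by ring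
      rw [this, sub_smul]
      ring
    have htr : 0 < t - r := by linarith
    have h1t : 0 < 1 - t := by linarith
    rcases lt_trichotomy s 0 with hs | hs | hs
    · -- backward motion
      have hbf : b = false := by
        cases b with
        | false => rfl
        | true => exact absurd (hb1 rfl) (not_le.2 hs)
      have h1 := hS.reflect ((σ i).symm k) i c hside (2 * tau p i - θ) (-(u * ((1 - t) * s))) (-((t - r) * s))
        (by nlinarith [mul_pos hu0 h1t, mul_neg_of_pos_of_neg (mul_pos hu0 h1t) hs]) (by nlinarith)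
      have e1 : 2 * tau p i - (2 * tau p i - θ) = θ := by ring
      have e2 : c - (-(u * ((1 - t) * s))) • dir (2 * tau p i - θ) =
          c + (u * ((1 - t) * s)) • dir (2 * tau p i - θ) := by
        rw [neg_smul, sub_neg_eq_add]
      have e3 : c + (-((t - r) * s)) • dir θ = c - ((t - r) * s) • dir θ := by
        rw [neg_smul]; ring
      rw [e1, e2, e3, hreg, ← hz', Equiv.apply_symm_apply] at h1
      rw [hbf, if_neg (by decide)]
      exact (h1 hu' hz).symm
    · exfalso
      rw [hs, zero_smul, add_zero] at hAdef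
      rw [hAdef] at hA
      linarith
    · have hbt : b = true := by
        cases b with
        | true => rfl
        | false => exact absurd (hb2 rfl) (not_le.2 hs)
      have h1 := hS.reflect k i c hside θ ((t - r) * s) (u * ((1 - t) * s))
        (mul_pos htr hs) (mul_pos hu0 (mul_pos h1t hs))
      rw [hreg, ← hz'] at h1
      rw [hbt, if_pos rfl]
      exact h1 hz hu'

/-- invariance along itineraries, `s` of either sign -/
theorem inv (hR : S_Ref) (hH : S_Hull) {p : Fin (n + 3) → ℂ} (hp : IsConvexPolygon p)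
    {σ : Fin (n + 3) → Equiv.Perm F} {A : F → Set (ℂ × ℝ)} (hS : Fam p σ A) (b : Bool)
    (w : List (Fin (n + 3))) (z : ℂ) (θ s : ℝ) (hb1 : b = true → 0 ≤ s) (hb2 : b = false → s ≤ 0)
    (hz : z ∈ reg p) (hCh : Ch p w z (z + s • dir θ)) (k : F) :
    ((z, θ) ∈ A k ↔ fd p w (z + s • dir θ, θ) ∈ A (PP σ b w k)) := by
  have h := inv_gen hR hp (hH n p hp).2 hS b w k z θ s 0 hb1 hb2 (by simpa using hz) hCh
  simpa using h

end Run7.h130.MT
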