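import Pool.Agent.W396.BB.Lim
import Pool.Agent.Run7.h130.MT.Main

/-!
# Small transversal translations do not change the sets
-/

set_option autoImplicit false

namespace Run7.h130.MT

open Complex Set MeasureTheory Filter Topology Pool.Agent.W780.PG
open Pool.Agent.W780.BB hiding Bp meas_Bp per_Bp vol_neg vol_shear main_est
open Pool.Agent.W396.BB (dir_cont dir_norm shear_mp)

open scoped Real ComplexConjugate

variable {F : Type}

/-- the bad set -/
def DD {n : ℕ} (p : Fin (n + 3) → ℂ) (S : F → Set (ℂ × ℝ)) (r d : ℝ) : Set (ℂ × ℝ) :=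
  {x : ℂ × ℝ | x ∈ phase p ∧ Metric.closedBall x.1 r ⊆ reg p ∧
    ¬ Eqv S x (x.1 + d • (I * dir x.2), x.2)}

theorem DD_sub {n : ℕ} {p : Fin (n + 3) → ℂ} (hreg : region p = reg p) (S : F → Set (ℂ × ℝ))
    {η δ : ℝ} (hδ : 0 < δ) (hδη : δ < η) {k : ℕ} (hk : 0 < k) :
    DD p S (2 * η) δ ⊆ ⋃ j ∈ Finset.range k,
      (fun x : ℂ × ℝ => (x.1 + ((j : ℝ) * (δ / k)) • (I * dir x.2), x.2)) ⁻¹'
        (DD p S η (δ / k)) := by
  rintro x ⟨hx, hball, hne⟩
  have hk0 : (0 : ℝ) < k := by exact_mod_cast hk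
  -- points of the path
  obtain ⟨y, hy⟩ : ∃ y : ℕ → ℂ × ℝ,
      y = fun (j : ℕ) => (x.1 + ((j : ℝ) * (δ / k)) • (I * dir x.2), x.2) := ⟨_, rfl⟩
  have hex : ∃ j < k, ¬ Eqv S (y j) (y (j + 1)) := by
    by_contra hcon
    push Not at hcon
    have hall : ∀ j ≤ k, Eqv S (y 0) (y j) := by
      intro j
      induction j with
      | zero => exact fun _ _ => Iff.rfl
      | succ j ih => exact fun hj => (ih (by omega)).trans (hcon j (by omega))
    apply hne
    have h1 := hall k le_rfl
    have h0 : y 0 = x := by rw [hy]; simp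
    have h2 : y k = (x.1 + δ • (I * dir x.2), x.2) := by
      rw [hy]
      simp only
      rw [mul_div_cancel₀ _ hk0.ne']
    rw [h0, h2] at h1
    exact h1
  obtain ⟨j, hj, hjS⟩ := hex
  simp only [mem_iUnion, Finset.mem_range]
  refine ⟨j, hj, ?_⟩
  have hjk : ((j : ℝ)) * (δ / k) ≤ δ := by
    have : (j : ℝ) ≤ k := by exact_mod_cast hj.le
    calc (j : ℝ) * (δ / k) ≤ k * (δ / k) := by gcongr
      _ = δ := mul_div_cancel₀ _ hk0.ne'
  have hdist : dist (x.1 + ((j : ℝ) * (δ / k)) • (I * dir x.2)) x.1 ≤ δ := by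
    have hn : ‖I * dir x.2‖ = 1 := by rw [norm_mul, Complex.norm_I, dir_norm, one_mul]
    rw [dist_eq_norm, add_sub_cancel_left, norm_smul, hn,
      Real.norm_eq_abs, abs_of_nonneg (by positivity)]
    linarith
  refine ⟨⟨?_, hx.2⟩, ?_, ?_⟩
  · show x.1 + ((j : ℝ) * (δ / k)) • (I * dir x.2) ∈ region p
    rw [hreg]
    exact hball (Metric.mem_closedBall.2 (by linarith))
  · intro z hz
    apply hball
    rw [Metric.mem_closedBall] at hz ⊢
    have := dist_triangle z (x.1 + ((j : ℝ) * (δ / k)) • (I * dir x.2)) x.1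
    simp only at hz
    linarith
  · have h1 : y (j + 1) = ((y j).1 + (δ / k) • (I * dir (y j).2), (y j).2) := by
      rw [hy]
      simp only [Prod.mk.injEq, and_true]
      rw [add_assoc, ← add_smul]
      push_cast
      congr 2
      ring
    rw [h1] at hjS
    rw [hy] at hjS
    exact hjS

theorem DD_meas {n : ℕ} {p : Fin (n + 3) → ℂ} (hreg : region p = reg p) (S : F → Set (ℂ × ℝ))
    {η δ : ℝ} (hδ : 0 < δ) (hδη : δ < η) {k : ℕ} (hk : 0 < k) :
    volume (DD p S (2 * η) δ) ≤ k * volume (DD p S η (δ / k)) := by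
  calc volume (DD p S (2 * η) δ) ≤ volume (⋃ j ∈ Finset.range k,
        (fun x : ℂ × ℝ => (x.1 + ((j : ℝ) * (δ / k)) • (I * dir x.2), x.2)) ⁻¹'
          (DD p S η (δ / k))) := measure_mono (DD_sub hreg S hδ hδη hk)
    _ ≤ ∑ j ∈ Finset.range k, volume
        ((fun x : ℂ × ℝ => (x.1 + ((j : ℝ) * (δ / k)) • (I * dir x.2), x.2)) ⁻¹'
          (DD p S η (δ / k))) := measure_biUnion_finset_le _ _
    _ ≤ ∑ j ∈ Finset.range k, volume (DD p S η (δ / k)) := by
        refine Finset.sum_le_sum fun j _ => ?_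
        have hmp := shear_mp (fun θ => ((j : ℝ) * (δ / k)) • (I * dir θ))
          (by have := dir_cont; exact (by fun_prop : Continuous _).measurable)
        refine (Measure.le_map_apply hmp.measurable.aemeasurable _).trans ?_
        rw [hmp.map_eq]
    _ = k * volume (DD p S η (δ / k)) := by
        rw [Finset.sum_const, Finset.card_range, nsmul_eq_mul]

theorem lim (hB : S_Basic) (hHull : S_Hull) (hRef : S_Ref) (hFan : S_Fan)
    (hEx : S_Exist) (hGen : S_Gen) (hFlow : S_Flow) (hBad : S_Bad) [Countable F] {n : ℕ}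
    {p : Fin (n + 3) → ℂ}
    (hp : IsConvexPolygon p) {σ : Fin (n + 3) → Equiv.Perm F} {S : F → Set (ℂ × ℝ)}
    (hS : ∀ c, MeasurableSet (S c)) (hinv : Fam p σ S) {C0 : ℝ}
    (hC0 : ∀ h : ℝ, 0 < h → h < 1 →
      volume {x : ℂ × ℝ | x ∈ phase p ∧ ¬ Eqv S x (x.1, x.2 + h)} ≤ ENNReal.ofReal (C0 * h))
    {η δ : ℝ} (hδ : 0 < δ) (hδη : δ < η) : volume (DD p S (2 * η) δ) = 0 := by
  have hreg : region p = reg p := (hHull n p hp).2
  obtain ⟨C, hC⟩ : ∃ C, C = max C0 0 := ⟨_, rfl⟩
  have hC1 : 0 ≤ C := by rw [hC]; exact le_max_right _ _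
  have hC2 : ∀ h : ℝ, 0 < h → h < 1 →
      volume {x : ℂ × ℝ | x ∈ phase p ∧ ¬ Eqv S x (x.1, x.2 + h)} ≤
        ENNReal.ofReal (C * h) := by
    intro h h0 h1
    refine (hC0 h h0 h1).trans (ENNReal.ofReal_le_ofReal ?_)
    refine mul_le_mul_of_nonneg_right ?_ h0.le
    rw [hC]; exact le_max_left _ _
  -- bound for every T
  have key : ∀ T : ℝ, 0 < T → volume (DD p S (2 * η) δ) ≤
      ENNReal.ofReal ((6 * C + 1) * (π / 2) * δ / T) := by
    intro T hT
    have hev := main_est hB hHull hRef hFan hEx hGen hFlow hBad hp hS hinv hC1 hC2 hT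
      (hδ.trans hδη)
    -- the sequence of angles
    have hx0 : Tendsto (fun k : ℕ => δ / (k * T)) atTop (𝓝 0) := by
      have h1 : Tendsto (fun k : ℕ => (k : ℝ) * T) atTop atTop :=
        tendsto_natCast_atTop_atTop.atTop_mul_const hT
      exact tendsto_const_nhds.div_atTop h1
    have hh0 : Tendsto (fun k : ℕ => Real.arcsin (δ / (k * T))) atTop (𝓝[>] 0) := by
      rw [tendsto_nhdsWithin_iff]
      constructor
      · have := (Real.continuous_arcsin.tendsto 0).comp hx0
        rw [Real.arcsin_zero] at this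
        exact this
      · filter_upwards [eventually_gt_atTop 0] with k hk
        have : (0 : ℝ) < k := by exact_mod_cast hk
        exact Real.arcsin_pos.2 (by positivity)
    have hsmall : ∀ᶠ k : ℕ in atTop, δ / (k * T) < 1 := hx0.eventually (gt_mem_nhds one_pos)
    obtain ⟨k, hk1, hk2, hk3⟩ := ((hh0.eventually hev).and
      (hsmall.and (eventually_gt_atTop 0))).exists
    have hk0 : (0 : ℝ) < k := by exact_mod_cast hk3
    have hs : Real.sin (Real.arcsin (δ / (k * T))) = δ / (k * T) :=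
      Real.sin_arcsin (by have : 0 < δ / (k * T) := by positivity
                          linarith) hk2.le
    have hTs : T * Real.sin (Real.arcsin (δ / (k * T))) = δ / k := by
      rw [hs]; field_simp
    rw [hTs] at hk1
    have hle : Real.arcsin (δ / (k * T)) ≤ (π / 2) * (δ / (k * T)) := by
      have h1 := Real.mul_le_sin (x := Real.arcsin (δ / (k * T)))
        (Real.arcsin_nonneg.2 (by positivity)) (Real.arcsin_le_pi_div_two _)
      rw [hs] at h1
      have hpi := Real.pi_pos
      calc Real.arcsin (δ / (k * T)) = (π / 2) * (2 / π * Real.arcsin (δ / (k * T))) := by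
            field_simp
        _ ≤ (π / 2) * (δ / (k * T)) := by gcongr
    calc volume (DD p S (2 * η) δ) ≤ k * volume (DD p S η (δ / k)) :=
          DD_meas hreg S hδ hδη hk3
      _ ≤ k * ENNReal.ofReal ((6 * C + 1) * Real.arcsin (δ / (k * T))) := by
          gcongr
          exact hk1
      _ = ENNReal.ofReal (k * ((6 * C + 1) * Real.arcsin (δ / (k * T)))) := by
          rw [ENNReal.ofReal_mul hk0.le, ENNReal.ofReal_natCast]
      _ ≤ ENNReal.ofReal ((6 * C + 1) * (π / 2) * δ / T) := by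
          refine ENNReal.ofReal_le_ofReal ?_
          calc k * ((6 * C + 1) * Real.arcsin (δ / (k * T))) ≤
                k * ((6 * C + 1) * ((π / 2) * (δ / (k * T)))) := by gcongr
            _ = (6 * C + 1) * (π / 2) * δ / T := by field_simp
  -- T to infinity
  have hlim : Tendsto (fun T : ℝ => ENNReal.ofReal ((6 * C + 1) * (π / 2) * δ / T)) atTop
      (𝓝 0) := by
    have h1 : Tendsto (fun T : ℝ => (6 * C + 1) * (π / 2) * δ / T) atTop (𝓝 0) :=
      tendsto_const_nhds.div_atTop tendsto_id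
    have := (ENNReal.continuous_ofReal.tendsto 0).comp h1
    rw [ENNReal.ofReal_zero] at this
    exact this
  refine le_antisymm ?_ zero_le
  refine ge_of_tendsto hlim ?_
  filter_upwards [eventually_gt_atTop (0 : ℝ)] with T hT
  exact key T hT

end Run7.h130.MT
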