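import Pool.Agent.Run7.h130.MT.Jump

/-!
# The relation of the sets of directions
-/

set_option autoImplicit false

namespace Run7.h130.MT

open Complex Set MeasureTheory Filter Topology Pool.Agent.W780.PG Pool.Agent.W780.BB
open Pool.Agent.W101.BB hiding first ae_good refl

open scoped Real ComplexConjugate

variable {n : ℕ} {F : Type}

theorem rel [Countable F] (hB : S_Basic) (hH : S_Hull) {p : Fin (n + 3) → ℂ}
    (hp : IsConvexPolygon p) {σ : Fin (n + 3) → Equiv.Perm F} {S : F → Set (ℂ × ℝ)}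
    (hS : Fam p σ S) {Θ : F → Set ℝ} (hΘp : ∀ c θ, θ + 2 * π ∈ Θ c ↔ θ ∈ Θ c)
    (h0 : ∀ c, volume {x : ℂ × ℝ | x ∈ phase p ∧ ¬ (x ∈ S c ↔ x.2 ∈ Θ c)} = 0)
    (i : Fin (n + 3)) : Rel Θ (tau p i) (σ i) := by
  have hg : ∀ᵐ θ : ℝ, ∀ c, Gd p (S c) (Θ c) θ :=
    ae_all_iff.2 fun c => ae_good hH hp (hS.periodic c) (hΘp c) (h0 c)
  have hmp : MeasurePreserving (fun θ : ℝ => 2 * tau p i - θ) volume volume :=
    Measure.measurePreserving_sub_left volume _
  have hg' : ∀ᵐ θ : ℝ, ∀ c, Gd p (S c) (Θ c) (2 * tau p i - θ) :=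
    hmp.quasiMeasurePreserving.ae hg
  have hne : p (i + 1) ≠ p i := by
    intro h
    have := (hB n p hp).1 h
    have h1 : (1 : Fin (n + 3)) = 0 := by
      have h2 : i + 1 = i + 0 := by rw [this, add_zero]
      exact add_left_cancel h2
    exact absurd h1 (by simp)
  have hnorm : 0 < ‖p (i + 1) - p i‖ := norm_pos_iff.2 (sub_ne_zero.2 hne)
  filter_upwards [hg, hg'] with θ h1 h2
  constructor
  · intro h3 c
    have h4 : rate p i θ < 0 := by
      rw [rate_eq]
      exact mul_neg_of_pos_of_neg hnorm h3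
    exact (first hB hH hp i (fun y hy => hS.reflect c i y hy) h4 (h1 c) (h2 (σ i c))).symm
  · intro h3 c
    have h4 : rate p i (2 * tau p i - θ) < 0 := by
      rw [rate_refl, rate_eq]
      have := mul_pos hnorm h3
      linarith
    have h5 : 2 * tau p i - (2 * tau p i - θ) = θ := by ring
    have h6 := first hB hH hp i (fun y hy => hS.reflect ((σ i).symm c) i y hy) h4
      (h2 ((σ i).symm c)) (by rw [h5]; exact h1 (σ i ((σ i).symm c)))
    rw [h5, Equiv.apply_symm_apply] at h6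
    exact h6

end Run7.h130.MT
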