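import Pool.Agent.W780.BB.Final
import Pool.Agent.Run7.h130.MT.Lim
import Pool.Agent.Run7.h130.MT.Dir
import Pool.Agent.Run7.h130.MT.Cost
import Pool.Agent.Run7.h130.MT.RelF

/-!
# The theorems on discrete extensions
-/

set_option autoImplicit false

namespace Run7.h130.MT

open Complex Set MeasureTheory Filter Topology Pool.Agent.W780.PG
open Pool.Agent.W780.BB hiding Bp meas_Bp per_Bp vol_neg vol_shear main_est

open scoped Real ComplexConjugate

variable {n : ℕ} {F : Type}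

theorem basic : S_Basic := Pool.Agent.W174.PG.basic

theorem hull : S_Hull := Pool.Agent.W975.PG.hull basic

/-- the sets depend only on the direction -/
theorem directions [Countable F] {p : Fin (n + 3) → ℂ} (hp : IsConvexPolygon p)
    {σ : Fin (n + 3) → Equiv.Perm F} {S : F → Set (ℂ × ℝ)} (hS : ∀ c, MeasurableSet (S c))
    (hI : Fam p σ S) {C : ℝ}
    (hC : ∀ h : ℝ, 0 < h → h < 1 →
      volume {x : ℂ × ℝ | x ∈ phase p ∧ ¬ Eqv S x (x.1, x.2 + h)} ≤ ENNReal.ofReal (C * h))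
    (c : F) :
    ∃ Θ : Set ℝ, MeasurableSet Θ ∧ (∀ θ, θ + 2 * π ∈ Θ ↔ θ ∈ Θ) ∧
      volume {x : ℂ × ℝ | x ∈ phase p ∧ ¬ (x ∈ S c ↔ x.2 ∈ Θ)} = 0 := by
  have hR : S_Ref := Pool.Agent.W347.BB.ref
  have hM : S_Mp := Pool.Agent.W333.BB.mp
  have hO : S_Open := Pool.Agent.W762.BB.open_it
  have hU : S_Uniq := Pool.Agent.W108.BB.uniq
  have hV : S_Rev := W973.BB.rev hR
  have hEx : S_Exit := Pool.Agent.W337.BB.exit_th
  have hUnif : S_Unif := Pool.Agent.W12.BB.Unif.unif W327.BB.alt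
    (Pool.Agent.W340.BB.Trip.trip hR basic)
  have hE : S_Exist := Pool.Agent.W345.BB.exist hR hEx hUnif
  have hG : S_Gen := Pool.Agent.W337.BB.gen_th
  have hFl : S_Flow := Pool.Agent.W462.BBF.flow hR hM hO hU hV hull basic
  have hBad : S_Bad := Pool.Agent.W74.BB.bad
  have hFan : S_Fan := Pool.Agent.W12.BB.Fan.fan hR
  refine dir_main basic hull hp (hS c) (hI.periodic c) (hI.free c) fun η δ h1 h2 => ?_
  have h3 := lim basic hull hR hFan hE hG hFl hBad hp hS hI hC h1 h2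
  refine measure_mono_null ?_ h3
  rintro x ⟨a1, a2, a3⟩
  exact ⟨a1, a2, fun h => a3 (h c)⟩

/-- the family of the sets of directions does not change much -/
theorem bound [Countable F] {p : Fin (n + 3) → ℂ} (hp : IsConvexPolygon p)
    {S : F → Set (ℂ × ℝ)} {C : ℝ}
    (hC : ∀ h : ℝ, 0 < h → h < 1 →
      volume {x : ℂ × ℝ | x ∈ phase p ∧ ¬ Eqv S x (x.1, x.2 + h)} ≤ ENNReal.ofReal (C * h))
    {Θ : F → Set ℝ}
    (h3 : ∀ c, volume {x : ℂ × ℝ | x ∈ phase p ∧ ¬ (x ∈ S c ↔ x.2 ∈ Θ c)} = 0) :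
    ∃ r : ℝ, 0 < r ∧ ∀ h : ℝ, 0 < h → h < 1 →
      ENNReal.ofReal r * volume (Chg Θ h ∩ Ioo 0 (2 * π - 1)) ≤ ENNReal.ofReal (C * h) := by
  have hreg : region p = reg p := (hull n p hp).2
  obtain ⟨-, hop, -, -, -, hne, -⟩ := basic n p hp
  rw [← hreg] at hne hop
  have hpos : 0 < volume (region p) := hop.measure_pos volume hne
  obtain ⟨r, hr0, hr⟩ := ENNReal.lt_iff_exists_nnreal_btwn.1 hpos
  have hr0' : (0 : ℝ) < r := by exact_mod_cast hr0
  refine ⟨r, hr0', fun h h0 hlt1 => ?_⟩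
  have hN1 : volume (⋃ c, {x : ℂ × ℝ | x ∈ phase p ∧ ¬ (x ∈ S c ↔ x.2 ∈ Θ c)}) = 0 :=
    measure_iUnion_null h3
  have hmap : MeasurePreserving (fun x : ℂ × ℝ => x + ((0 : ℂ), h)) volume volume := by
    have h6 := (MeasurePreserving.id (volume : Measure ℂ)).prod
      (measurePreserving_add_right (volume : Measure ℝ) h)
    rw [← Measure.volume_eq_prod] at h6
    have e : (fun x : ℂ × ℝ => x + ((0 : ℂ), h)) = Prod.map id (fun t : ℝ => t + h) := by
      ext1 x
      ext1 <;> simp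
    rw [e]
    exact h6
  have hN2 : volume ((fun x : ℂ × ℝ => x + ((0 : ℂ), h)) ⁻¹'
      (⋃ c, {x : ℂ × ℝ | x ∈ phase p ∧ ¬ (x ∈ S c ↔ x.2 ∈ Θ c)})) = 0 :=
    hmap.quasiMeasurePreserving.preimage_null hN1
  have hsub : region p ×ˢ (Chg Θ h ∩ Ioo 0 (2 * π - 1)) ⊆
      {x : ℂ × ℝ | x ∈ phase p ∧ ¬ Eqv S x (x.1, x.2 + h)} ∪
      ((⋃ c, {x : ℂ × ℝ | x ∈ phase p ∧ ¬ (x ∈ S c ↔ x.2 ∈ Θ c)}) ∪
      ((fun x : ℂ × ℝ => x + ((0 : ℂ), h)) ⁻¹'
        (⋃ c, {x : ℂ × ℝ | x ∈ phase p ∧ ¬ (x ∈ S c ↔ x.2 ∈ Θ c)}))) := by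
    intro x hx
    obtain ⟨a1, a2, a3, a4⟩ := hx
    have hxp : x ∈ phase p := ⟨a1, a3.le, by linarith⟩
    have hxp2 : (x + ((0 : ℂ), h)) ∈ phase p := by
      refine ⟨?_, ?_, ?_⟩
      · simpa using a1
      · show (0 : ℝ) ≤ x.2 + h
        linarith
      · show x.2 + h < 2 * π
        linarith
    by_cases b1 : Eqv S x (x.1, x.2 + h)
    · right
      by_cases b2 : ∀ c, (x ∈ S c ↔ x.2 ∈ Θ c)
      · right
        by_contra b3
        apply a2
        intro c
        have e : x + ((0 : ℂ), h) = (x.1, x.2 + h) := by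
          ext1 <;> simp
        have c1 := b1 c
        have c2 := b2 c
        have c3 : ((x + ((0 : ℂ), h)) ∈ S c ↔ (x + ((0 : ℂ), h)).2 ∈ Θ c) := by
          by_contra hcon
          exact b3 (mem_iUnion.2 ⟨c, hxp2, hcon⟩)
        rw [e] at c3
        rw [← c2, c1]
        exact c3
      · left
        rw [not_forall] at b2
        obtain ⟨c, hc⟩ := b2
        exact mem_iUnion.2 ⟨c, hxp, hc⟩
    · exact Or.inl ⟨hxp, b1⟩
  calc ENNReal.ofReal r * volume (Chg Θ h ∩ Ioo 0 (2 * π - 1)) ≤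
        volume (region p) * volume (Chg Θ h ∩ Ioo 0 (2 * π - 1)) := by
        rw [ENNReal.ofReal_coe_nnreal]
        gcongr
    _ = volume (region p ×ˢ (Chg Θ h ∩ Ioo 0 (2 * π - 1))) := by
        rw [Measure.volume_eq_prod, Measure.prod_prod]
    _ ≤ volume {x : ℂ × ℝ | x ∈ phase p ∧ ¬ Eqv S x (x.1, x.2 + h)} + 0 := by
        refine (measure_mono hsub).trans ((measure_union_le _ _).trans (add_le_add le_rfl ?_))
        rw [nonpos_iff_eq_zero]
        exact measure_union_null hN1 hN2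
    _ ≤ ENNReal.ofReal (C * h) := by
        rw [add_zero]
        exact hC h h0 hlt1

/-- the invariant sets of an irrational polygon -/
theorem product [Countable F] {p : Fin (n + 3) → ℂ} (hp : IsConvexPolygon p)
    (hirr : ∃ i, Irrational (ang p i / π))
    {σ : Fin (n + 3) → Equiv.Perm F} {S : F → Set (ℂ × ℝ)}
    (hS : ∀ c, MeasurableSet (S c)) (hI : Fam p σ S) {C : ℝ}
    (hC : ∀ h : ℝ, 0 < h → h < 1 →
      volume {x : ℂ × ℝ | x ∈ phase p ∧ ¬ Eqv S x (x.1, x.2 + h)} ≤ ENNReal.ofReal (C * h)) :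
    ∃ B : Set F, (∀ i c, σ i c ∈ B ↔ c ∈ B) ∧
      ∀ c, volume {x : ℂ × ℝ | x ∈ phase p ∧ ¬ (x ∈ S c ↔ c ∈ B)} = 0 := by
  choose Θ h1 h2 h3 using directions hp hS hI hC
  have hrel : ∀ i, Rel Θ (tau p i) (σ i) := fun i => rel basic hull hp hI h2 h3 i
  obtain ⟨i, hi⟩ := hirr
  have hTau : S_Tau := Pool.Agent.W337.BB.tau_th
  obtain ⟨k, hk⟩ := hTau n p hp i
  have hirr2 : Irrational ((tau p i - tau p (i - 1)) / π) := by
    rw [hk]
    have : (π - ang p i + 2 * k * π) / π = ((1 + 2 * k : ℤ) : ℝ) - ang p i / π := by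
      have := Real.pi_ne_zero
      field_simp
      push_cast
      ring
    rw [this]
    exact hi.intCast_sub _
  obtain ⟨r, hr, hbd⟩ := bound hp hC h3
  have hno := null_or' h1 h2 (hrel i) (hrel (i - 1)) hirr2 hr
    (show 0 < 2 * π - 1 by linarith [Real.pi_gt_three]) hbd
  have hb : ∀ c, ∀ᵐ θ : ℝ, (θ ∈ Θ c ↔ volume (Θ c)ᶜ = 0) := by
    intro c
    rcases hno c with h4 | h4
    · have h5 : volume (Θ c)ᶜ ≠ 0 := by
        intro h6
        have h7 : volume (univ : Set ℝ) = 0 := by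
          rw [← union_compl_self (Θ c)]
          exact measure_union_null h4 h6
        simp at h7
      rw [ae_iff]
      refine measure_mono_null ?_ h4
      intro θ hθ
      by_contra hcon
      exact hθ (iff_of_false hcon h5)
    · rw [ae_iff]
      refine measure_mono_null ?_ h4
      intro θ hθ hcon
      exact hθ (iff_of_true hcon h4)
  refine ⟨{c | volume (Θ c)ᶜ = 0}, fun j c => ?_, fun c => ?_⟩
  · have hmp : MeasurePreserving (fun θ : ℝ => 2 * tau p j - θ) volume volume :=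
      Measure.measurePreserving_sub_left volume _
    have h4 := hmp.quasiMeasurePreserving.ae (hb (σ j c))
    obtain ⟨θ, hθ1, hθ2, hθ3, hθ4⟩ : ∃ θ : ℝ, Real.sin (θ - tau p j) < 0 ∧
        (θ ∈ Θ c ↔ volume (Θ c)ᶜ = 0) ∧
        (2 * tau p j - θ ∈ Θ (σ j c) ↔ volume (Θ (σ j c))ᶜ = 0) ∧
        (2 * tau p j - θ ∈ Θ (σ j c) ↔ θ ∈ Θ c) := by
      by_contra hcon
      have h5 : volume (Ioo (tau p j - π) (tau p j)) = 0 := by
        refine measure_mono_null ?_ (ae_iff.1 ((hb c).and (h4.and (hrel j))))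
        rintro θ ⟨ht1, ht2⟩ ⟨g1, g2, g3⟩
        have hsin : Real.sin (θ - tau p j) < 0 :=
          Real.sin_neg_of_neg_of_neg_pi_lt (by linarith) (by linarith)
        exact hcon ⟨θ, hsin, g1, g2, g3.1 hsin c⟩
      rw [Real.volume_Ioo, ENNReal.ofReal_eq_zero] at h5
      linarith [Real.pi_pos]
    show volume (Θ (σ j c))ᶜ = 0 ↔ volume (Θ c)ᶜ = 0
    rw [← hθ2, ← hθ3, hθ4]
  · by_cases hc : volume (Θ c)ᶜ = 0
    · refine measure_mono_null (t := {x : ℂ × ℝ | x ∈ phase p ∧ ¬ (x ∈ S c ↔ x.2 ∈ Θ c)} ∪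
        (univ ×ˢ (Θ c)ᶜ)) ?_ ?_
      · rintro x ⟨a1, a2⟩
        by_cases hx : x.2 ∈ Θ c
        · refine Or.inl ⟨a1, fun h => a2 ?_⟩
          exact iff_of_true (h.2 hx) hc
        · exact Or.inr ⟨mem_univ _, hx⟩
      · refine measure_union_null (h3 c) ?_
        rw [Measure.volume_eq_prod, Measure.prod_prod, hc, mul_zero]
    · have hc0 := (hno c).resolve_right hc
      refine measure_mono_null (t := {x : ℂ × ℝ | x ∈ phase p ∧ ¬ (x ∈ S c ↔ x.2 ∈ Θ c)} ∪
        (univ ×ˢ (Θ c))) ?_ ?_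
      · rintro x ⟨a1, a2⟩
        by_cases hx : x.2 ∈ Θ c
        · exact Or.inr ⟨mem_univ _, hx⟩
        · refine Or.inl ⟨a1, fun h => a2 ?_⟩
          exact iff_of_false (fun h' => hx (h.1 h')) hc
      · refine measure_union_null (h3 c) ?_
        rw [Measure.volume_eq_prod, Measure.prod_prod, hc0, mul_zero]

theorem sections {p : Fin (n + 3) → ℂ} {σ : Fin (n + 3) → Equiv.Perm F}
    {A : Set ((ℂ × ℝ) × F)} (h : IsInvariantF p σ A) : Fam p σ (fun c => {x | (x, c) ∈ A}) :=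
  ⟨h.periodic, h.free, h.reflect⟩

theorem phase_pos {p : Fin (n + 3) → ℂ} (hp : IsConvexPolygon p) : volume (phase p) ≠ 0 := by
  have hreg : region p = reg p := (hull n p hp).2
  obtain ⟨-, -, -, -, -, hne, -⟩ := basic n p hp
  rw [← hreg] at hne
  exact Pool.Agent.W230.BB.Conv.pos_meas hne isOpen_univ (θ := π)
    ⟨Real.pi_pos, by linarith [Real.pi_pos]⟩ (mem_univ _) fun w t h1 h2 _ => ⟨h1, h2⟩

/-- the criterion -/
theorem criterion [Countable F] [Nonempty F] {p : Fin (n + 3) → ℂ} (hp : IsConvexPolygon p)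
    (σ : Fin (n + 3) → Equiv.Perm F) :
    (∀ A : Set ((ℂ × ℝ) × F), (∀ c, MeasurableSet {x | (x, c) ∈ A}) → IsInvariantF p σ A →
      FinitePerimeterF p A → IsTrivialF p A) ↔
    (∃ i, Irrational (ang p i / π)) ∧
      ∀ B : Set F, (∀ i c, σ i c ∈ B ↔ c ∈ B) → B = ∅ ∨ B = univ := by
  constructor
  · intro h
    constructor
    · by_contra hcon
      push Not at hcon
      obtain ⟨S, a, b, ⟨C, hC⟩, d⟩ := Pool.Agent.W230.BB.Conv.conv
        Pool.Agent.W337.BB.tau_th n p hp hcon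
      have h1 := h {x | x.1 ∈ S} (fun c => a)
        ⟨fun c z θ => b.periodic z θ, fun c z θ s => b.free z θ s,
          fun c i y hy θ s r => b.reflect i y hy θ s r⟩ ⟨C, fun h h0 h1 => by
            refine (measure_mono ?_).trans (hC h h0 h1)
            rintro x ⟨e1, e2⟩
            exact ⟨e1, fun e3 => e2 fun c => e3⟩⟩
      apply d
      obtain ⟨c⟩ := ‹Nonempty F›
      rcases h1 with h1 | h1
      · left
        exact h1 c
      · right
        exact h1 c
    · intro B hB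
      have h1 := h {x | x.2 ∈ B} (fun c => by
          by_cases hc : c ∈ B <;> simp [hc])
        ⟨fun c z θ => Iff.rfl, fun c z θ s _ _ => Iff.rfl,
          fun c i y hy θ s r _ _ _ _ => (hB i c).symm⟩
        ⟨0, fun h h0 h1 => by
          have : {x : ℂ × ℝ | x ∈ phase p ∧ ¬ ∀ c : F, ((x, c) ∈ {x : (ℂ × ℝ) × F | x.2 ∈ B} ↔
              ((x.1, x.2 + h), c) ∈ {x : (ℂ × ℝ) × F | x.2 ∈ B})} = ∅ := by
            ext x
            simp
          rw [this]
          simp⟩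
      rcases h1 with h1 | h1
      · left
        rw [eq_empty_iff_forall_notMem]
        intro c hc
        apply phase_pos hp
        refine measure_mono_null ?_ (h1 c)
        intro x hx
        exact ⟨hx, hc⟩
      · right
        rw [eq_univ_iff_forall]
        intro c
        by_contra hc
        apply phase_pos hp
        refine measure_mono_null ?_ (h1 c)
        intro x hx
        exact ⟨hx, hc⟩
  · rintro ⟨hirr, htr⟩ A hA hI ⟨C, hC⟩
    obtain ⟨B, hB, hB2⟩ := product hp hirr hA (sections hI) hC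
    rcases htr B hB with rfl | rfl
    · left
      intro c
      refine measure_mono_null ?_ (hB2 c)
      rintro x ⟨h1, h2⟩
      exact ⟨h1, fun h => (notMem_empty c) (h.1 h2)⟩
    · right
      intro c
      refine measure_mono_null ?_ (hB2 c)
      rintro x ⟨h1, h2⟩
      exact ⟨h1, fun h => h2 (h.2 (mem_univ c))⟩

end Run7.h130.MT
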