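import Pool.Agent.Run7.h130.MT.Rot

/-!
# Families of sets of directions of bounded variation

If the family `Θ` changes only on a set of measure `O(h)` when all directions are turned by `h`, then
it is locally constant outside finitely many jumps, and the set of the jumps is invariant under the
reflections. This works for arbitrary permutations of the colours, which may depend on the side from
which the direction meets the mirror.
-/

set_option autoImplicit false

namespace Run7.h130.MT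

open Complex Set MeasureTheory Filter Topology

open scoped Real ComplexConjugate

variable {F : Type}

/-- all the sets of the family are null or conull in the interval -/
def Cst (Θ : F → Set ℝ) (a b : ℝ) : Prop :=
  ∀ c, volume (Θ c ∩ Ioo a b) = 0 ∨ volume (Ioo a b \ Θ c) = 0

theorem Cst.mono {Θ : F → Set ℝ} {a b a' b' : ℝ} (h : Cst Θ a b) (h1 : a ≤ a') (h2 : b' ≤ b) :
    Cst Θ a' b' := by
  intro c
  have hs : Ioo a' b' ⊆ Ioo a b := Ioo_subset_Ioo h1 h2
  exact (h c).imp (measure_mono_null (inter_subset_inter_right _ hs))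
    (measure_mono_null (diff_subset_diff_left hs))

theorem Cst.map {Θ : F → Set ℝ} {a b a' b' : ℝ} (ρ : Equiv.Perm F) {g : ℝ → ℝ}
    (hg : MeasurePreserving g volume volume) (hab : ∀ x ∈ Ioo a' b', g x ∈ Ioo a b)
    (hr : ∀ᵐ x : ℝ, x ∈ Ioo a' b' → ∀ c, (g x ∈ Θ (ρ c) ↔ x ∈ Θ c)) (h : Cst Θ a b) :
    Cst Θ a' b' := by
  intro c
  have hr' : volume {x : ℝ | ¬ (x ∈ Ioo a' b' → ∀ c, (g x ∈ Θ (ρ c) ↔ x ∈ Θ c))} = 0 :=
    ae_iff.1 hr
  refine (h (ρ c)).imp (fun h1 => ?_) (fun h1 => ?_)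
  · have h2 := hg.quasiMeasurePreserving.preimage_null h1
    refine measure_mono_null ?_ (measure_union_null h2 hr')
    rintro x ⟨hx1, hx2⟩
    by_cases h3 : ∀ c, (g x ∈ Θ (ρ c) ↔ x ∈ Θ c)
    · exact Or.inl ⟨(h3 c).2 hx1, hab x hx2⟩
    · exact Or.inr fun h4 => h3 (h4 hx2)
  · have h2 := hg.quasiMeasurePreserving.preimage_null h1
    refine measure_mono_null ?_ (measure_union_null h2 hr')
    rintro x ⟨hx1, hx2⟩
    by_cases h3 : ∀ c, (g x ∈ Θ (ρ c) ↔ x ∈ Θ c)
    · exact Or.inl ⟨hab x hx1, fun h4 => hx2 ((h3 c).1 h4)⟩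
    · exact Or.inr fun h4 => h3 (h4 hx1)

/-- the points near which the family is constant -/
def UU (Θ : F → Set ℝ) : Set ℝ := {θ | ∃ ε : ℝ, 0 < ε ∧ Cst Θ (θ - ε) (θ + ε)}

theorem UU_open (Θ : F → Set ℝ) : IsOpen (UU Θ) := by
  rw [Metric.isOpen_iff]
  rintro θ ⟨ε, hε, h⟩
  refine ⟨ε / 2, by positivity, fun θ' hθ' => ⟨ε / 2, by positivity, h.mono ?_ ?_⟩⟩
  · rw [Metric.mem_ball, Real.dist_eq, abs_lt] at hθ'
    linarith
  · rw [Metric.mem_ball, Real.dist_eq, abs_lt] at hθ'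
    linarith

/-- the periods of `UU` -/
def Pr (Θ : F → Set ℝ) : AddSubgroup ℝ where
  carrier := {t | ∀ θ, θ + t ∈ UU Θ ↔ θ ∈ UU Θ}
  zero_mem' := fun θ => by rw [add_zero]
  add_mem' := by
    intro s t hs ht θ
    rw [← add_assoc, ht, hs]
  neg_mem' := by
    intro t ht θ
    rw [← ht (θ + -t), neg_add_cancel_right]

theorem two_pi_mem {Θ : F → Set ℝ} (hper : ∀ c θ, θ + 2 * π ∈ Θ c ↔ θ ∈ Θ c) : 2 * π ∈ Pr Θ := by
  intro θ
  constructor
  · rintro ⟨ε, hε, h⟩
    refine ⟨ε, hε, h.map 1 (measurePreserving_add_right volume (2 * π)) ?_ ?_⟩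
    · rintro x ⟨h1, h2⟩
      exact ⟨by linarith, by linarith⟩
    · exact Eventually.of_forall fun x _ c => hper c x
  · rintro ⟨ε, hε, h⟩
    refine ⟨ε, hε, h.map 1 (measurePreserving_add_right volume (-(2 * π))) ?_ ?_⟩
    · rintro x ⟨h1, h2⟩
      exact ⟨by linarith, by linarith⟩
    · refine Eventually.of_forall fun x _ c => ?_
      have := hper c (x + -(2 * π))
      rw [neg_add_cancel_right] at this
      exact this.symm

/-- the relation of the sets of directions for the reflection in a line with direction angle `τ` -/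
def Rel (Θ : F → Set ℝ) (τ : ℝ) (σ : Equiv.Perm F) : Prop :=
  ∀ᵐ θ : ℝ, (Real.sin (θ - τ) < 0 → ∀ c, (2 * τ - θ ∈ Θ (σ c) ↔ θ ∈ Θ c)) ∧
    (0 < Real.sin (θ - τ) → ∀ c, (2 * τ - θ ∈ Θ (σ.symm c) ↔ θ ∈ Θ c))

theorem UU_refl {Θ : F → Set ℝ} (hper : ∀ c θ, θ + 2 * π ∈ Θ c ↔ θ ∈ Θ c) {τ : ℝ}
    {σ : Equiv.Perm F} (hrel : Rel Θ τ σ) {θ : ℝ} (hθ : θ ∈ UU Θ) : 2 * τ - θ ∈ UU Θ := by
  obtain ⟨ε, hε, h⟩ := hθ
  obtain ⟨x0, hx0⟩ : ∃ x0, x0 = 2 * τ - θ := ⟨_, rfl⟩
  have hcont : Continuous fun x : ℝ => Real.sin (x - τ) :=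
    Real.continuous_sin.comp (continuous_id.sub continuous_const)
  have hmp : MeasurePreserving (fun θ : ℝ => 2 * τ - θ) volume volume :=
    Measure.measurePreserving_sub_left volume _
  rw [← hx0]
  rcases lt_trichotomy (Real.sin (x0 - τ)) 0 with h1 | h1 | h1
  · obtain ⟨δ, hδ, h2⟩ := Metric.eventually_nhds_iff.1
      (hcont.continuousAt.eventually (gt_mem_nhds h1))
    refine ⟨min ε δ, lt_min hε hδ, h.map σ hmp ?_ ?_⟩
    · rintro x ⟨h3, h4⟩
      have := min_le_left ε δ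
      constructor
      · show θ - ε < 2 * τ - x
        linarith
      · show 2 * τ - x < θ + ε
        linarith
    · filter_upwards [hrel] with x hx hxI
      refine hx.1 (h2 ?_)
      rw [Real.dist_eq, abs_lt]
      have := min_le_right ε δ
      exact ⟨by linarith [hxI.1], by linarith [hxI.2]⟩
  · obtain ⟨k, hk⟩ := Real.sin_eq_zero_iff.1 h1
    have h2 : k • (2 * π) ∈ Pr Θ := AddSubgroup.zsmul_mem _ (two_pi_mem hper) k
    have e : x0 = θ + k • (2 * π) := by
      rw [zsmul_eq_mul]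
      linarith
    rw [e]
    exact (h2 θ).2 ⟨ε, hε, h⟩
  · obtain ⟨δ, hδ, h2⟩ := Metric.eventually_nhds_iff.1
      (hcont.continuousAt.eventually (lt_mem_nhds h1))
    refine ⟨min ε δ, lt_min hε hδ, h.map σ.symm hmp ?_ ?_⟩
    · rintro x ⟨h3, h4⟩
      have := min_le_left ε δ
      constructor
      · show θ - ε < 2 * τ - x
        linarith
      · show 2 * τ - x < θ + ε
        linarith
    · filter_upwards [hrel] with x hx hxI
      refine hx.2 (h2 ?_)
      rw [Real.dist_eq, abs_lt]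
      have := min_le_right ε δ
      exact ⟨by linarith [hxI.1], by linarith [hxI.2]⟩

theorem UU_all {Θ : F → Set ℝ} (hper : ∀ c θ, θ + 2 * π ∈ Θ c ↔ θ ∈ Θ c) {a b : ℝ}
    {σ τ : Equiv.Perm F} (ha : Rel Θ a σ) (hb : Rel Θ b τ) (hirr : Irrational ((a - b) / π))
    {θ : ℝ} (hθ : θ ∈ UU Θ) (θ' : ℝ) : θ' ∈ UU Θ := by
  have h1 : 2 * (a - b) ∈ Pr Θ := by
    intro x
    constructor
    · intro h
      have h2 := UU_refl hper ha h
      have h3 := UU_refl hper hb h2
      have e : 2 * b - (2 * a - (x + 2 * (a - b))) = x := by ring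
      rwa [e] at h3
    · intro h
      have h2 := UU_refl hper hb h
      have h3 := UU_refl hper ha h2
      have e : 2 * a - (2 * b - x) = x + 2 * (a - b) := by ring
      rwa [e] at h3
  have hd : Dense ((AddSubgroup.closure {2 * (a - b), 2 * π} : AddSubgroup ℝ) : Set ℝ) := by
    rw [dense_addSubgroupClosure_pair_iff]
    have e : 2 * (a - b) / (2 * π) = (a - b) / π := by
      have := Real.pi_ne_zero
      field_simp
    rwa [e]
  have hle : (AddSubgroup.closure {2 * (a - b), 2 * π} : AddSubgroup ℝ) ≤ Pr Θ := by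
    rw [AddSubgroup.closure_le]
    rintro x (rfl | rfl)
    · exact h1
    · exact two_pi_mem hper
  have ho : IsOpen {t : ℝ | θ' + t ∈ UU Θ} :=
    (UU_open Θ).preimage (continuous_const.add continuous_id)
  obtain ⟨g, hg1, hg2⟩ := hd.inter_open_nonempty _ ho ⟨θ - θ', by
    show θ' + (θ - θ') ∈ UU Θ
    rwa [add_sub_cancel]⟩
  exact (hle hg2 θ').1 hg1

theorem null_of_UU {Θ : F → Set ℝ} (h : ∀ θ, θ ∈ UU Θ) (c : F) :
    volume (Θ c) = 0 ∨ volume (Θ c)ᶜ = 0 := by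
  have hopen : ∀ s : Set ℝ, IsOpen {θ : ℝ | ∃ ε : ℝ, 0 < ε ∧ volume (s ∩ Ioo (θ - ε) (θ + ε)) = 0} := by
    intro s
    rw [Metric.isOpen_iff]
    rintro θ ⟨ε, hε, h⟩
    refine ⟨ε / 2, by positivity, fun θ' hθ' => ⟨ε / 2, by positivity, measure_mono_null ?_ h⟩⟩
    rw [Metric.mem_ball, Real.dist_eq, abs_lt] at hθ'
    exact inter_subset_inter_right _ (Ioo_subset_Ioo (by linarith) (by linarith))
  have hloc : ∀ s : Set ℝ, (∀ θ : ℝ, ∃ ε : ℝ, 0 < ε ∧ volume (s ∩ Ioo (θ - ε) (θ + ε)) = 0) →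
      volume s = 0 := by
    intro s hs
    refine measure_null_of_locally_null s fun x _ => ?_
    obtain ⟨ε, hε, h1⟩ := hs x
    refine ⟨s ∩ Ioo (x - ε) (x + ε), ?_, h1⟩
    exact inter_mem_nhdsWithin s (Ioo_mem_nhds (by linarith) (by linarith))
  obtain ⟨V, hV⟩ : ∃ V : Set ℝ, V = {θ : ℝ | ∃ ε : ℝ, 0 < ε ∧
      volume (Θ c ∩ Ioo (θ - ε) (θ + ε)) = 0} := ⟨_, rfl⟩
  obtain ⟨W, hW⟩ : ∃ W : Set ℝ, W = {θ : ℝ | ∃ ε : ℝ, 0 < ε ∧
      volume ((Θ c)ᶜ ∩ Ioo (θ - ε) (θ + ε)) = 0} := ⟨_, rfl⟩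
  have hVo : IsOpen V := by rw [hV]; exact hopen _
  have hWo : IsOpen W := by rw [hW]; exact hopen _
  have hcov : ∀ θ, θ ∈ V ∨ θ ∈ W := by
    intro θ
    obtain ⟨ε, hε, h1⟩ := h θ
    rw [hV, hW]
    refine (h1 c).imp (fun h2 => ⟨ε, hε, h2⟩) fun h2 => ⟨ε, hε, ?_⟩
    rwa [inter_comm, ← diff_eq]
  have hdis : ∀ θ, θ ∈ V → θ ∈ W → False := by
    intro θ h1 h2
    rw [hV] at h1
    rw [hW] at h2
    obtain ⟨ε, hε, h1⟩ := h1
    obtain ⟨δ, hδ, h2⟩ := h2
    have h3 : volume (Ioo (θ - min ε δ) (θ + min ε δ)) = 0 := by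
      refine measure_mono_null ?_ (measure_union_null h1 h2)
      rintro x ⟨hx1, hx2⟩
      have a1 := min_le_left ε δ
      have a2 := min_le_right ε δ
      by_cases hx : x ∈ Θ c
      · exact Or.inl ⟨hx, by linarith, by linarith⟩
      · exact Or.inr ⟨hx, by linarith, by linarith⟩
    rw [Real.volume_Ioo, ENNReal.ofReal_eq_zero] at h3
    have := lt_min hε hδ
    linarith
  have hcl : IsClopen V := by
    refine ⟨?_, hVo⟩
    have e : V = Wᶜ := by
      ext θ
      constructor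
      · exact fun h1 h2 => hdis θ h1 h2
      · exact fun h1 => (hcov θ).resolve_right h1
    rw [e]
    exact hWo.isClosed_compl
  rcases isClopen_iff.1 hcl with h1 | h1
  · right
    apply hloc
    intro θ
    have h2 : θ ∈ W := (hcov θ).resolve_left (by rw [h1]; exact notMem_empty θ)
    rw [hW] at h2
    exact h2
  · left
    apply hloc
    intro θ
    have h2 : θ ∈ V := by rw [h1]; exact mem_univ θ
    rw [hV] at h2
    exact h2

end Run7.h130.MT
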