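import Pool.Agent.W101.BB.Refl
import Pool.Agent.Run7.h130.MT.Defs

/-!
# The sets of directions and the reflections
-/

set_option autoImplicit false

namespace Run7.h130.MT

open Complex Set MeasureTheory Filter Topology Pool.Agent.W780.PG Pool.Agent.W780.BB
open Pool.Agent.W101.BB hiding first ae_good refl

open scoped Real ComplexConjugate

variable {n : ℕ} {F : Type}

lemma first (hB : S_Basic) (hH : S_Hull) {p : Fin (n + 3) → ℂ} (hp : IsConvexPolygon p)
    (i : Fin (n + 3)) {S S' : Set (ℂ × ℝ)}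
    (hS : ∀ y ∈ openSegment ℝ (p i) (p (i + 1)), ∀ θ s r : ℝ, 0 < s → 0 < r →
      y - s • dir θ ∈ region p → y + r • dir (2 * tau p i - θ) ∈ region p →
      ((y - s • dir θ, θ) ∈ S ↔ (y + r • dir (2 * tau p i - θ), 2 * tau p i - θ) ∈ S'))
    {Θ Θ' : Set ℝ} {θ : ℝ}
    (hr : rate p i θ < 0) (h1 : Gd p S Θ θ) (h2 : Gd p S' Θ' (2 * tau p i - θ)) :
    (θ ∈ Θ ↔ 2 * tau p i - θ ∈ Θ') := by
  obtain ⟨-, hop, -, -, -, -, -, -, hfr, -, hside, hvs, hsd, -⟩ := hB n p hp
  have hreg := (hH n p hp).2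
  set θ' := 2 * tau p i - θ with hθ'
  have hr' : rate p i θ' = - rate p i θ := rate_refl p i θ
  -- a point of the side
  obtain ⟨y0, hy0⟩ : (side p i).Nonempty := by
    unfold side
    exact ⟨_, ⟨1 / 2, 1 / 2, by norm_num, by norm_num, by norm_num, rfl⟩⟩
  obtain ⟨-, hy0i, hy0k⟩ := hsd i y0 hy0
  have hy0i' : sf p i y0 = 0 := hy0i
  -- a neighbourhood in which everything is decided by the side `i`
  have hnb : ∀ᶠ z in 𝓝 y0, (∀ k, k ≠ i → 0 < sf p k z) ∧ ∀ k, z ≠ p k := by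
    refine Filter.Eventually.and ?_ ?_
    · refine Filter.eventually_all.2 fun k => ?_
      by_cases hk : k = i
      · exact Filter.Eventually.of_forall fun z h => absurd hk h
      · have := (cont_sf p k).continuousAt.eventually (lt_mem_nhds (hy0k k hk))
        filter_upwards [this] with z hz _ using hz
    · refine Filter.eventually_all.2 fun k => ?_
      exact eventually_ne_nhds fun h => hvs i k (h ▸ hy0)
  have hneg : -rate p i θ ≠ 0 := by linarith
  set κ : ℝ := (- rate p i θ)⁻¹ with hκ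
  have hκ0 : 0 < κ := inv_pos.2 (by linarith)
  have hκr : κ * rate p i θ = -1 := by
    rw [hκ, inv_mul_eq_div, div_eq_iff hneg]; ring
  set Y : ℂ → ℂ := fun z => z + (κ * sf p i z) • dir θ with hY
  set Φ : ℂ → ℂ := fun z => Y z + (κ * sf p i z) • dir θ' with hΦ
  have hYc : Continuous Y := by
    have := cont_sf p i
    exact continuous_id.add ((continuous_const.mul this).smul continuous_const)
  have hΦc : Continuous Φ := by
    have := cont_sf p i
    exact hYc.add ((continuous_const.mul this).smul continuous_const)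
  have hY0 : Y y0 = y0 := by rw [hY]; simp [hy0i']
  have hΦ0 : Φ y0 = y0 := by rw [hΦ]; simp [hy0i', hY0]
  have hV : ∀ᶠ z in 𝓝 y0, ((∀ k, k ≠ i → 0 < sf p k (Y z)) ∧ ∀ k, Y z ≠ p k) ∧
      ((∀ k, k ≠ i → 0 < sf p k (Φ z)) ∧ ∀ k, Φ z ≠ p k) := by
    refine Filter.Eventually.and ?_ ?_
    · have h3 : Tendsto Y (𝓝 y0) (𝓝 y0) := by
        have := hYc.continuousAt (x := y0)
        rwa [ContinuousAt, hY0] at this
      exact h3.eventually hnb
    · have h3 : Tendsto Φ (𝓝 y0) (𝓝 y0) := by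
        have := hΦc.continuousAt (x := y0)
        rwa [ContinuousAt, hΦ0] at this
      exact h3.eventually hnb
  obtain ⟨V, hVs, hVo, hyV⟩ := mem_nhds_iff.1 hV
  have hW : (V ∩ reg p).Nonempty := by
    have : y0 ∈ closure (reg p) := frontier_subset_closure (hfr i hy0)
    exact mem_closure_iff.1 this V hVo hyV
  have hWo : IsOpen (V ∩ reg p) := hVo.inter hop
  -- the inverse map
  set Ψ : ℂ → ℂ := fun z => z - (κ * sf p i z) • (dir θ + dir θ') with hΨ
  have hsfY : ∀ z, sf p i (Y z) = 0 := by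
    intro z
    rw [hY]
    simp only
    rw [sf_add]
    linear_combination (sf p i z) * hκr
  have hsfΦ : ∀ z, sf p i (Φ z) = sf p i z := by
    intro z
    rw [hΦ]
    simp only
    rw [sf_add, hsfY, hr']
    linear_combination -(sf p i z) * hκr
  have hΨΦ : ∀ z, Ψ (Φ z) = z := by
    intro z
    rw [hΨ]
    simp only
    rw [hsfΦ, hΦ, hY]
    simp only
    rw [smul_add]
    abel
  have hΨd : Differentiable ℝ Ψ := by
    have h3 : Differentiable ℝ (sf p i) := by
      have e : sf p i = fun z => (conj (p (i + 1) - p i) * (z - p i)).im := rfl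
      rw [e]
      exact Complex.imCLM.differentiable.comp
        ((differentiable_const _).mul (differentiable_id.sub_const _))
    exact differentiable_id.sub ((h3.const_mul _).smul_const _)
  -- the images of null sets
  have h2' : ∀ᵐ z : ℂ, Φ z ∈ reg p → ((Φ z, θ') ∈ S' ↔ θ' ∈ Θ') := by
    unfold Gd at h2
    rw [ae_iff] at h2 ⊢
    have h4 := addHaar_image_eq_zero_of_differentiableOn_of_addHaar_eq_zero volume
      (hΨd.differentiableOn (s := {a | ¬ (a ∈ reg p → ((a, θ') ∈ S' ↔ θ' ∈ Θ'))})) h2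
    refine measure_mono_null ?_ h4
    intro z hz
    exact ⟨Φ z, hz, hΨΦ z⟩
  obtain ⟨z, ⟨hzV, hzr⟩, hz1, hz2⟩ : ∃ z ∈ V ∩ reg p,
      (z ∈ reg p → ((z, θ) ∈ S ↔ θ ∈ Θ)) ∧ (Φ z ∈ reg p → ((Φ z, θ') ∈ S' ↔ θ' ∈ Θ')) := by
    by_contra hcon
    have h5 := h1.and h2'
    have h6 : volume (V ∩ reg p) = 0 := by
      rw [ae_iff] at h5
      exact measure_mono_null (fun z hz hP => hcon ⟨z, hz, hP⟩) h5
    exact (hWo.measure_pos volume hW).ne' h6
  have hzi : 0 < sf p i z := hzr i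
  have hs : 0 < κ * sf p i z := mul_pos hκ0 hzi
  obtain ⟨⟨hY1, hY2⟩, hΦ1, -⟩ := hVs hzV
  have hΦr : Φ z ∈ reg p := by
    intro k
    by_cases hk : k = i
    · subst hk
      have := hsfΦ z
      unfold sf at this hzi
      rw [this]; exact hzi
    · exact hΦ1 k hk
  have hYs : Y z ∈ openSegment ℝ (p i) (p (i + 1)) := by
    refine (hside (Y z) ?_ i (hsfY z) hY2).1
    intro k
    by_cases hk : k = i
    · subst hk
      exact (hsfY z).ge
    · exact (hY1 k hk).le
  have hback : Y z - (κ * sf p i z) • dir θ = z := by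
    rw [hY]; simp
  have hre := hS (Y z) hYs θ (κ * sf p i z) (κ * sf p i z) hs hs
    (by rw [hback, hreg]; exact hzr) (by rw [hreg]; exact hΦr)
  rw [hback] at hre
  exact (hz1 hzr).symm.trans (hre.trans (hz2 hΦr))

/-- for almost every direction the set is described -/
lemma ae_good (hH : S_Hull) {p : Fin (n + 3) → ℂ} (hp : IsConvexPolygon p)
    {S : Set (ℂ × ℝ)} (hSp : ∀ (z : ℂ) (θ : ℝ), (z, θ + 2 * π) ∈ S ↔ (z, θ) ∈ S) {Θ : Set ℝ}
    (hΘp : ∀ θ, θ + 2 * π ∈ Θ ↔ θ ∈ Θ)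
    (h0 : volume {x : ℂ × ℝ | x ∈ phase p ∧ ¬ (x ∈ S ↔ x.2 ∈ Θ)} = 0) :
    ∀ᵐ θ : ℝ, Gd p S Θ θ := by
  have hreg := (hH n p hp).2
  have h1 : ∀ᵐ x : ℂ × ℝ, x ∈ phase p → (x ∈ S ↔ x.2 ∈ Θ) := by
    rw [ae_iff]
    convert h0 using 2
    ext x
    simp only [Classical.not_imp]
  have h2 : ∀ᵐ y ∂((volume : Measure ℝ).prod (volume : Measure ℂ)),
      y.swap ∈ phase p → (y.swap ∈ S ↔ y.swap.2 ∈ Θ) :=
    (Measure.measurePreserving_swap (μ := (volume : Measure ℝ))
      (ν := (volume : Measure ℂ))).quasiMeasurePreserving.ae h1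
  have h3 := Measure.ae_ae_of_ae_prod h2
  have h4 : ∀ᵐ θ : ℝ, θ ∈ Ico 0 (2 * π) → Gd p S Θ θ := by
    filter_upwards [h3] with θ hθ hI
    filter_upwards [hθ] with z hz hzr
    exact hz ⟨by rw [hreg]; exact hzr, hI⟩
  -- periodicity
  have hper : ∀ θ, Gd p S Θ (θ + 2 * π) ↔ Gd p S Θ θ := by
    intro θ
    unfold Gd
    simp only [hSp, hΘp]
  have hperz : ∀ (k : ℤ) θ, Gd p S Θ (θ + k • (2 * π)) ↔ Gd p S Θ θ := by
    intro k
    induction k using Int.induction_on with
    | zero => intro θ; simp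
    | succ k ih =>
      intro θ
      rw [add_zsmul, one_zsmul, ← add_assoc, hper, ih]
    | pred k ih =>
      intro θ
      rw [← hper, sub_zsmul, one_zsmul]
      have : θ + ((-(k:ℤ)) • (2 * π) + -(2 * π)) + 2 * π = θ + (-(k:ℤ)) • (2 * π) := by ring
      rw [this, ih]
  have h5 : ∀ᵐ θ : ℝ, ∀ k : ℤ, θ + k • (2 * π) ∈ Ico 0 (2 * π) → Gd p S Θ (θ + k • (2 * π)) := by
    rw [ae_all_iff]
    intro k
    exact (measurePreserving_add_right (volume : Measure ℝ) (k • (2 * π))).quasiMeasurePreserving.ae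
      h4
  filter_upwards [h5] with θ hθ
  obtain ⟨k, hk, -⟩ := existsUnique_add_zsmul_mem_Ico Real.two_pi_pos θ 0
  rw [zero_add] at hk
  exact (hperz k θ).1 (hθ k hk)

end Run7.h130.MT
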