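import Pool.Agent.Run7.h130.MT.Refl

/-!
# The directions in which a family of sets changes
-/

set_option autoImplicit false

namespace Run7.h130.MT

open Complex Set MeasureTheory Filter Topology Pool.Agent.W780.PG Pool.Agent.W780.BB

open scoped Real ComplexConjugate

variable {n : ℕ} {F : Type}

/-- the set of the directions in which the family changes if the direction is turned by `h` -/
def Chg (Θ : F → Set ℝ) (h : ℝ) : Set ℝ := {θ | ¬ ∀ c, (θ ∈ Θ c ↔ θ + h ∈ Θ c)}

theorem meas_Chg [Countable F] {Θ : F → Set ℝ} (hΘ : ∀ c, MeasurableSet (Θ c)) (h : ℝ) :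
    MeasurableSet (Chg Θ h) := by
  have h1 : Chg Θ h = (⋂ c, ((Θ c ∩ (fun θ => θ + h) ⁻¹' Θ c) ∪
      ((Θ c)ᶜ ∩ ((fun θ => θ + h) ⁻¹' Θ c)ᶜ)))ᶜ := by
    ext θ
    simp only [Chg, mem_compl_iff, mem_iInter, mem_union, mem_inter_iff, mem_preimage]
    refine not_congr (forall_congr' fun c => ?_)
    tauto
  rw [h1]
  refine (MeasurableSet.iInter fun c => ?_).compl
  have h2 : MeasurableSet ((fun θ : ℝ => θ + h) ⁻¹' Θ c) := (measurable_add_const h) (hΘ c)
  exact ((hΘ c).inter h2).union ((hΘ c).compl.inter h2.compl)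

end Run7.h130.MT
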